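import Pool.Agent.FS.ExpSides.Pin

/-!
Planar convex codes of linear size all of whose convex realizations contain a set with
exponentially many edges.
-/

namespace Pool.Agent.Results.MP_79902f_lc.ExpEdges

open Pool.Agent.Lib.MP_79902f_lc Pool.Agent.FS.ExpSides

theorem result : ∃ K : ℕ, ∀ n : ℕ, 1 ≤ n → ∃ (N : ℕ) (C : Set (Set (Fin N))),
    N ≤ K * n ∧ C.ncard ≤ K * n ∧
    (∃ X : Fin N → Set (ℝ × ℝ), (∀ i, Convex ℝ (X i)) ∧ C = Set.range fun z => {i | z ∈ X i}) ∧
    ∀ X : Fin N → Set (ℝ × ℝ), (∀ i, Convex ℝ (X i)) → (C = Set.range fun z => {i | z ∈ X i}) →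
      ∃ (i : Fin N) (a b : Fin (2 ^ n) → ℝ × ℝ), (∀ k, a k ≠ b k) ∧
        (∀ k, segment ℝ (a k) (b k) ⊆ frontier (X i)) ∧
        Function.Injective fun k => affineSpan ℝ {a k, b k} := by
  classical
  let H : Unit → Unit → Prop := fun _ _ => True
  let B : Fin 3 → ℕ → Unit → Prop := fun _ _ _ => True
  refine ⟨nb + 6 * nw Unit + (constL Unit).length + 21 * 2 ^ (4 * nw Unit), fun n hn =>
    ⟨nb + (n + 5) * nw Unit, (fun c : List ℕ => {i | (i : ℕ) ∈ c}) '' {c | c ∈ codeL (n + 5) H B},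
      by nlinarith [Nat.zero_le nb, Nat.zero_le (nw Unit), Nat.zero_le (constL Unit).length,
        Nat.zero_le (2 ^ (4 * nw Unit))], ?_, ?_, fun X hX h => ?_⟩⟩
  · have v : ∀ r, (varL (n + 5) H (B r) r).length ≤ (n + 6) * 2 ^ (4 * nw Unit) := by
      intro r
      refine (List.length_filter_le _ _).trans (le_of_eq ?_)
      simp [List.length_flatMap]
    have l : (codeL (n + 5) H B).length ≤
        (constL Unit).length + 3 * ((n + 6) * 2 ^ (4 * nw Unit)) := by
      simp only [codeL, List.length_append]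
      have := v 0
      have := v 1
      have := v 2
      omega
    have e : {c | c ∈ codeL (n + 5) H B} = ((codeL (n + 5) H B).toFinset : Set (List ℕ)) := by
      ext; simp
    refine (Set.ncard_image_le (List.finite_toSet _)).trans ?_
    rw [e, Set.ncard_coe_finset]
    refine ((List.toFinset_card_le _).trans l).trans ?_
    nlinarith [Nat.zero_le nb, Nat.zero_le (nw Unit), Nat.zero_le (constL Unit).length,
      Nat.zero_le (2 ^ (4 * nw Unit))]
  · obtain ⟨X, hX, h⟩ := realizable_of_strong (n := n + 5) (by omega) (H := H) (B := B)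
      ⟨0, 0, fun _ _ => (), by norm_num, fun _ _ _ => rfl, fun _ => trivial, fun _ => trivial,
        fun _ _ _ => trivial, fun _ _ _ _ _ _ _ => trivial⟩
    refine ⟨fun i => X i, fun i => hX i, Set.ext fun S => ⟨?_, ?_⟩⟩
    · rintro ⟨c, hc, rfl⟩
      obtain ⟨z, hz⟩ := (Set.ext_iff.1 h _).1 ⟨c, hc, rfl⟩
      refine ⟨z, Set.ext fun i => ?_⟩
      have := Set.ext_iff.1 hz i
      simp only [Set.mem_ofPred_eq, i.2, true_and] at this ⊢
      exact this.symm
    · rintro ⟨z, rfl⟩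
      obtain ⟨c, hc, hz⟩ := (Set.ext_iff.1 h _).2 ⟨z, rfl⟩
      refine ⟨c, hc, Set.ext fun i => ?_⟩
      have := Set.ext_iff.1 hz i
      simp only [Set.mem_ofPred_eq, i.2, true_and] at this ⊢
      exact this.symm
  · let Y : Neu Unit → Set (ℝ × ℝ) := fun a =>
      {z | ∃ hi : idx a < nb + (n + 5) * nw Unit, z ∈ X ⟨idx a, hi⟩}
    have key : ∀ (z : ℝ × ℝ), ∀ c ∈ codeL (n + 5) H B,
        {i : Fin (nb + (n + 5) * nw Unit) | (i : ℕ) ∈ c} = {i | z ∈ X i} →
        (fun a => idx a ∈ c) = fun a => z ∈ Y a := by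
      intro z c hc e
      funext a
      apply propext
      constructor
      · intro ha
        have hi := inCode_lt (n := n + 5) (by omega) ((codeL_spec _).2 ⟨c, hc, rfl⟩) (a := a) ha
        exact ⟨hi, (Set.ext_iff.1 e ⟨idx a, hi⟩).1 ha⟩
      · rintro ⟨hi, hz⟩
        exact (Set.ext_iff.1 e ⟨idx a, hi⟩).2 hz
    have hi : idx (.inr (n + 4, .inl (cls 0)) : Neu Unit) < nb + (n + 5) * nw Unit :=
      (idx_inr_lt _ _ _).2 (by omega)
    have := many_edges (n := n + 5) (H := H) (B := B) (Y := Y)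
      (fun a z hz z' hz' u v hu hv huv => ⟨hz.1, hX _ hz.2 hz'.2 hu hv huv⟩) (fun σ => by
        rw [codeL_spec]
        constructor
        · rintro ⟨c, hc, rfl⟩
          obtain ⟨z, hz⟩ := (Set.ext_iff.1 h _).1 ⟨c, hc, rfl⟩
          exact ⟨z, key z c hc hz.symm⟩
        · rintro ⟨z, rfl⟩
          obtain ⟨c, hc, hz⟩ := (Set.ext_iff.1 h _).2 ⟨z, rfl⟩
          exact ⟨c, hc, (key z c hc hz).symm⟩) (s := n) (by omega)
    have e : Y (.inr (n + 4, .inl (cls 0))) = X ⟨_, hi⟩ :=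
      Set.ext fun z => ⟨fun hz => hz.2, fun hz => ⟨hi, hz⟩⟩
    rw [e] at this
    exact ⟨_, this⟩

end Pool.Agent.Results.MP_79902f_lc.ExpEdges
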