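import Pool.Agent.Lib.MP_79902f_lc.NMain

namespace Pool.Agent.Results.MP_79902f_lc.NexpHard

open N68a2faeb N793a5b8e Pool.Agent.Lib.MP_79902f_lc

/-- Realizability of a neural code by convex sets in the plane is hard for nondeterministic
exponential time under polynomial-time many-one reductions. -/
theorem result : ∀ L ∈ NEXP, ManyOneReducible L ConvexCode2 := fun _ hL => nexp_hard hL

end Pool.Agent.Results.MP_79902f_lc.NexpHard
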