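import Pool.Agent.Lib.MP_79902f_lc.WMain
import Pool.Agent.Lib.MP_79902f_lc.UMain

namespace Pool.Agent.Results.MP_79902f_lc.ReachComplete

open N68a2faeb N793a5b8e Pool.Agent.Lib.MP_79902f_lc

/-- Realizability of a neural code by convex sets in the plane is complete, under polynomial-time
many-one reductions, for the class of the problems that reduce to bounded reachability over the
reals with the number of steps written in binary. -/
theorem result : IsCompleteFor {L | ManyOneReducible L RealReach} ConvexCode2 := by
  refine ⟨Up.cc2_le_reach, ?_⟩
  rintro L ⟨f, hf, h⟩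
  obtain ⟨g, hg, h'⟩ := W.reach_le_cc2
  exact ⟨fun x => g (f x), hg.comp hf, fun x => (h x).trans (h' _)⟩

end Pool.Agent.Results.MP_79902f_lc.ReachComplete
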